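import Pool.Agent.Helper4.S7.StD2

/-!
# Module Hk5 of project W7: the rows of the fifth Hecke operator on the plane
-/

set_option autoImplicit false

namespace Pool.Agent.Helper27.S7

open Pool.Agent.Helper14.CV (Homog EqC act Tl)
open Pool.Agent.Helper28.WK (SymP)
open Pool.Agent.Helper4.S7 Pool.Agent.Helper84.S7 Pool.Agent.Helper52.S7 Pool.Agent.Helper76.S7

section

variable {R : Type} [AddCommGroup R] {r s : ℕ}

private lemma comp (u1 u2 w1 w2 v1 v2 : ℤ) (G : ℤ → ℤ → R) :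
    (edge7 0 u1 u2 v1 v2 G : ZMod (7 ^ r) → ZMod (7 ^ s) → R) =
      edge7 0 u1 u2 w1 w2 G + edge7 0 w1 w2 v1 v2 G := by
  funext x y
  simp only [Pi.add_apply, edge7]
  abel

private lemma comp' (u1 u2 w1 w2 v1 v2 : ℤ) (G : ℤ → ℤ → R) :
    (edge7 0 w1 w2 v1 v2 G : ZMod (7 ^ r) → ZMod (7 ^ s) → R) =
      edge7 0 u1 u2 v1 v2 G - edge7 0 u1 u2 w1 w2 G := by
  funext x y
  simp only [Pi.sub_apply, edge7]
  abel

private lemma comp'' (u1 u2 w1 w2 v1 v2 : ℤ) (G : ℤ → ℤ → R) :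
    (edge7 0 u1 u2 w1 w2 G : ZMod (7 ^ r) → ZMod (7 ^ s) → R) =
      edge7 0 u1 u2 v1 v2 G - edge7 0 w1 w2 v1 v2 G := by
  funext x y
  simp only [Pi.sub_apply, edge7]
  abel

private lemma rev (u1 u2 v1 v2 : ℤ) (G : ℤ → ℤ → R) :
    (edge7 0 u1 u2 v1 v2 G : ZMod (7 ^ r) → ZMod (7 ^ s) → R) = -edge7 0 v1 v2 u1 u2 G := by
  funext x y
  simp only [Pi.neg_apply, edge7]
  abel

private lemma nz (x : ZMod (7 ^ r)) (y : ZMod (7 ^ s)) {v1 v2 : ℤ} (hv : v1 ≠ 0 ∨ v2 ≠ 0) :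
    v1 + 7 ^ 0 * ((x.val : ℕ) : ℤ) * v2 ≠ 0 ∨
      7 * rY7 0 x y * v1 + (1 + 7 ^ (0 + 1) * ((x.val : ℕ) : ℤ) * rY7 0 x y) * v2 ≠ 0 := by
  by_contra h
  push Not at h
  obtain ⟨h1, h2⟩ := h
  have e2 : v2 = 0 := by linear_combination h2 - 7 * rY7 0 x y * h1
  have e1 : v1 = 0 := by rw [e2] at h1; linear_combination h1
  rcases hv with hv | hv
  · exact hv e1
  · exact hv e2

private lemma scaleV {G : ℤ → ℤ → R} (hH : Homog G) (k u1 u2 v1 v2 : ℤ) (hk : k ≠ 0)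
    (hv : v1 ≠ 0 ∨ v2 ≠ 0) :
    (edge7 0 u1 u2 (k * v1) (k * v2) G : ZMod (7 ^ r) → ZMod (7 ^ s) → R) =
      edge7 0 u1 u2 v1 v2 G := by
  funext x y
  simp only [edge7]
  congr 1
  rw [← hH k _ _ hk (nz x y hv)]
  congr 1 <;> ring

private lemma scaleU {G : ℤ → ℤ → R} (hH : Homog G) (k u1 u2 v1 v2 : ℤ) (hk : k ≠ 0)
    (hu : u1 ≠ 0 ∨ u2 ≠ 0) :
    (edge7 0 (k * u1) (k * u2) v1 v2 G : ZMod (7 ^ r) → ZMod (7 ^ s) → R) =
      edge7 0 u1 u2 v1 v2 G := by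
  funext x y
  simp only [edge7]
  congr 1
  rw [← hH k _ _ hk (nz x y hu)]
  congr 1 <;> ring

private lemma opL_nil {q q' : ℕ} (F : Fn7 q q') : opL [] F = 0 := rfl

private lemma opL_cons {q q' : ℕ} (k a b c d : ℤ) (L : List Tm) (F : Fn7 q q') :
    opL ((k, a, b, c, d) :: L) F = ((k : ℤ) : ZMod 7) • tr7 a b c d F + opL L F := by
  simp only [opL, List.map_cons, List.sum_cons, LinearMap.add_apply, LinearMap.smul_apply]
  rfl

end

theorem hHk5 (hf : S7HkF) (ht : S7Tre) (hm : S7Trm) : S7Hk5 := by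
  intro r s G hG i
  have hH := hG.1
  -- the Hecke formula
  have hmain : ∀ e : ℤ, (edge7 0 1 e 0 1 (Tl 5 (7 ^ r) G) : Fn7 (7 ^ r) (7 ^ s)) =
      tr7 1 0 0 5 (edge7 0 5 e 0 1 G) + (tr7 5 1 0 1 (edge7 0 (1 - e) (5 * e) (-1) 5 G) +
        (tr7 5 0 0 1 (edge7 0 1 (5 * e) 0 5 G) +
          (tr7 5 (-1) 0 1 (edge7 0 (1 + e) (5 * e) 1 5 G) +
            (tr7 5 (-2) 0 1 (edge7 0 (1 + 2 * e) (5 * e) 2 5 G) +
              tr7 5 (-3) 0 1 (edge7 0 (1 + 3 * e) (5 * e) 3 5 G))))) := by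
    intro e
    funext x y
    have h := hf (ZMod 7) inferInstance r s 5 G {-1, 0, 1, 2, 3} Nat.prime_five (by norm_num) hG
      (by decide) (by decide) 1 e 0 1 (Or.inl one_ne_zero) (Or.inr one_ne_zero) x y
    rw [Finset.sum_insert (by decide), Finset.sum_insert (by decide), Finset.sum_insert (by decide),
      Finset.sum_insert (by decide), Finset.sum_singleton] at h
    simp only [Nat.cast_ofNat, mul_zero, add_zero, mul_one, neg_zero, zero_mul, zero_add, neg_neg,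
      one_mul, neg_mul] at h
    exact h
  -- translated paths
  have hE : ∀ (a b c d u1 u2 v1 v2 : ℤ), a * d - 7 * b * c = 1 → (u1 ≠ 0 ∨ u2 ≠ 0) →
      (v1 ≠ 0 ∨ v2 ≠ 0) →
      (edge7 0 (a * u1 + b * u2) (7 * c * u1 + d * u2) (a * v1 + b * v2)
        (7 * c * v1 + d * v2) G : Fn7 (7 ^ r) (7 ^ s)) = tr7 a b c d (edge7 0 u1 u2 v1 v2 G) := by
    intro a b c d u1 u2 v1 v2 h hu hv
    funext x y
    exact ht (ZMod 7) inferInstance r s G hG a b c d u1 u2 v1 v2 h hu hv x y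
  have hM : ∀ (F : Fn7 (7 ^ r) (7 ^ s)) (a b c d a' b' c' d' : ℤ), ¬ 7 ∣ a → ¬ 7 ∣ d → ¬ 7 ∣ a' →
      ¬ 7 ∣ d' → tr7 a b c d (tr7 a' b' c' d' F) =
      tr7 (a * a' + 7 * b * c') (a * b' + b * d') (c * a' + d * c') (7 * c * b' + d * d') F :=
    fun F => (hm (ZMod 7) r s F).1
  have hN : ∀ (F : Fn7 (7 ^ r) (7 ^ s)) (a b c d : ℤ), ¬ 7 ∣ a → ¬ 7 ∣ d →
      tr7 (-a) (-b) (-c) (-d) F = tr7 a b c d F := by
    intro F a b c d ha hd
    have h := (hm (ZMod 7) r s F).2.2 (-1) a b c d (by norm_num) ha hd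
    simpa only [neg_mul, one_mul] using h
  have tadd : ∀ (a b c d : ℤ) (F F' : Fn7 (7 ^ r) (7 ^ s)),
      tr7 a b c d (F + F') = tr7 a b c d F + tr7 a b c d F' := fun _ _ _ _ _ _ => rfl
  have tsub : ∀ (a b c d : ℤ) (F F' : Fn7 (7 ^ r) (7 ^ s)),
      tr7 a b c d (F - F') = tr7 a b c d F - tr7 a b c d F' := fun _ _ _ _ _ _ => rfl
  have tneg : ∀ (a b c d : ℤ) (F : Fn7 (7 ^ r) (7 ^ s)),
      tr7 a b c d (-F) = -tr7 a b c d F := fun _ _ _ _ _ => rfl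
  have p0 : (edge7 0 1 0 0 1 G : Fn7 (7 ^ r) (7 ^ s)) = pf7 G 0 := rfl
  have p1 : (edge7 0 1 2 0 1 G : Fn7 (7 ^ r) (7 ^ s)) = pf7 G 1 := rfl
  -- the path from zero to one
  have q1 : (edge7 0 1 1 0 1 G : Fn7 (7 ^ r) (7 ^ s)) = pf7 G 0 - tr7 1 1 0 1 (pf7 G 0) := by
    have h := hE 1 1 0 1 1 0 0 1 (by norm_num) (Or.inl one_ne_zero) (Or.inr one_ne_zero)
    norm_num at h
    rw [← p0, ← h]
    exact comp' 1 0 1 1 0 1 G
  -- the path from one half to one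
  have qk : (edge7 0 1 1 1 2 G : Fn7 (7 ^ r) (7 ^ s)) =
      pf7 G 0 - tr7 1 1 0 1 (pf7 G 0) - pf7 G 1 := by
    rw [← q1, ← p1]
    exact comp'' 1 1 1 2 0 1 G
  -- the path from one half to infinity
  have qh : (edge7 0 1 0 1 2 G : Fn7 (7 ^ r) (7 ^ s)) = pf7 G 0 - pf7 G 1 := by
    rw [← p0, ← p1]
    exact comp'' 1 0 1 2 0 1 G
  -- the path from two to infinity
  have q2 : (edge7 0 1 0 2 1 G : Fn7 (7 ^ r) (7 ^ s)) = tr7 1 2 0 1 (pf7 G 0) := by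
    have h := hE 1 2 0 1 1 0 0 1 (by norm_num) (Or.inl one_ne_zero) (Or.inr one_ne_zero)
    norm_num at h
    rw [← p0, ← h]
  -- the path from minus one to infinity
  have qm : (edge7 0 1 0 (-1) 1 G : Fn7 (7 ^ r) (7 ^ s)) = tr7 1 (-1) 0 1 (pf7 G 0) := by
    have h := hE 1 (-1) 0 1 1 0 0 1 (by norm_num) (Or.inl one_ne_zero) (Or.inr one_ne_zero)
    norm_num at h
    rw [← p0, ← h]
  -- the path from zero to minus one fifth
  have qA : (edge7 0 (-1) 5 0 1 G : Fn7 (7 ^ r) (7 ^ s)) = tr7 1 0 (-1) 1 (pf7 G 1) := by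
    have h := hE 1 0 (-1) 1 1 2 0 1 (by norm_num) (Or.inl one_ne_zero) (Or.inr one_ne_zero)
    norm_num at h
    rw [← p1, ← h]
    have h' := scaleU (r := r) (s := s) hH (-1) 1 (-5) 0 1 (by norm_num) (Or.inl one_ne_zero)
    norm_num at h'
    exact h'
  -- the path from zero to one fifth
  have qB : (edge7 0 1 5 0 1 G : Fn7 (7 ^ r) (7 ^ s)) =
      -tr7 1 (-1) 1 (-6) (pf7 G 0 - tr7 1 1 0 1 (pf7 G 0) - pf7 G 1) := by
    have h := hE 1 (-1) 1 (-6) 1 1 1 2 (by norm_num) (Or.inl one_ne_zero) (Or.inl one_ne_zero)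
    norm_num at h
    rw [← qk, ← h]
    have h' := scaleU (r := r) (s := s) hH (-1) 1 5 0 1 (by norm_num) (Or.inl one_ne_zero)
    norm_num at h'
    rw [← h']
    exact rev (-1) (-5) 0 1 G
  -- the path from two fifths to one half
  have qC : (edge7 0 1 2 2 5 G : Fn7 (7 ^ r) (7 ^ s)) =
      -tr7 3 (-1) 1 (-2) (pf7 G 0 - tr7 1 1 0 1 (pf7 G 0)) := by
    have h := hE 3 (-1) 1 (-2) 1 1 0 1 (by norm_num) (Or.inl one_ne_zero) (Or.inr one_ne_zero)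
    norm_num at h
    rw [← q1, ← h]
    have h' := scaleU (r := r) (s := s) hH (-1) 1 2 2 5 (by norm_num) (Or.inl one_ne_zero)
    norm_num at h'
    rw [← h']
    exact rev (-1) (-2) 2 5 G
  -- the path from three fifths to one half
  have qD : (edge7 0 1 2 3 5 G : Fn7 (7 ^ r) (7 ^ s)) =
      tr7 4 (-3) 1 (-5) (pf7 G 0 - tr7 1 1 0 1 (pf7 G 0)) := by
    have h := hE 4 (-3) 1 (-5) 1 1 0 1 (by norm_num) (Or.inl one_ne_zero) (Or.inr one_ne_zero)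
    norm_num at h
    rw [← q1, ← h]
    have h' := scaleV (r := r) (s := s) hH (-1) 1 2 3 5 (by norm_num) (Or.inl three_ne_zero)
    norm_num at h'
    exact h'.symm
  rw [Fin.sum_univ_two]
  have hpf : (pf7 (Tl 5 (7 ^ r) G) i : Fn7 (7 ^ r) (7 ^ s)) =
    edge7 0 1 (e7 i) 0 1 (Tl 5 (7 ^ r) G) := rfl
  rw [hpf, hmain]
  -- products of matrices
  have cA : ∀ F : Fn7 (7 ^ r) (7 ^ s), tr7 5 1 0 1 (tr7 1 0 (-1) 1 F) = tr7 2 (-1) 1 (-1) F := by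
    intro F
    rw [hM _ _ _ _ _ _ _ _ _ (by norm_num) (by norm_num) (by norm_num) (by norm_num),
      ← hN F 2 (-1) 1 (-1) (by norm_num) (by norm_num)]
    norm_num
  have cB : ∀ F : Fn7 (7 ^ r) (7 ^ s), tr7 5 (-1) 0 1 (tr7 1 (-1) 1 (-6) F) =
      tr7 2 (-1) (-1) 6 F := by
    intro F
    rw [hM _ _ _ _ _ _ _ _ _ (by norm_num) (by norm_num) (by norm_num) (by norm_num),
      ← hN F 2 (-1) (-1) 6 (by norm_num) (by norm_num)]
    norm_num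
  have cB' : ∀ F : Fn7 (7 ^ r) (7 ^ s), tr7 2 (-1) (-1) 6 (tr7 1 1 0 1 F) =
      tr7 2 1 (-1) (-1) F := by
    intro F
    rw [hM _ _ _ _ _ _ _ _ _ (by norm_num) (by norm_num) (by norm_num) (by norm_num)]
    norm_num
  have cC : ∀ F : Fn7 (7 ^ r) (7 ^ s), tr7 5 (-2) 0 1 (tr7 3 (-1) 1 (-2) F) =
      tr7 1 (-1) 1 (-2) F := by
    intro F
    rw [hM _ _ _ _ _ _ _ _ _ (by norm_num) (by norm_num) (by norm_num) (by norm_num)]
    norm_num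
  have cC' : ∀ F : Fn7 (7 ^ r) (7 ^ s), tr7 1 (-1) 1 (-2) (tr7 1 1 0 1 F) = tr7 1 0 1 5 F := by
    intro F
    rw [hM _ _ _ _ _ _ _ _ _ (by norm_num) (by norm_num) (by norm_num) (by norm_num)]
    norm_num
  have cD : ∀ F : Fn7 (7 ^ r) (7 ^ s), tr7 5 (-3) 0 1 (tr7 4 (-3) 1 (-5) F) =
      tr7 1 0 (-1) 5 F := by
    intro F
    rw [hM _ _ _ _ _ _ _ _ _ (by norm_num) (by norm_num) (by norm_num) (by norm_num),
      ← hN F 1 0 (-1) 5 (by norm_num) (by norm_num)]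
    norm_num
  have cD' : ∀ F : Fn7 (7 ^ r) (7 ^ s), tr7 1 0 (-1) 5 (tr7 1 1 0 1 F) = tr7 1 1 (-1) (-2) F := by
    intro F
    rw [hM _ _ _ _ _ _ _ _ _ (by norm_num) (by norm_num) (by norm_num) (by norm_num)]
    norm_num
  fin_cases i
  · -- row 0
    have z : e7 (⟨0, by norm_num⟩ : Fin 2) = 0 := rfl
    rw [z]
    have a1 : (edge7 0 5 0 0 1 G : Fn7 (7 ^ r) (7 ^ s)) = pf7 G 0 := by
      have h := scaleU (r := r) (s := s) hH 5 1 0 0 1 (by norm_num) (Or.inl one_ne_zero)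
      norm_num at h
      rw [h, p0]
    have a2 : (edge7 0 1 0 (-1) 5 G : Fn7 (7 ^ r) (7 ^ s)) =
        pf7 G 0 - tr7 1 0 (-1) 1 (pf7 G 1) := by
      rw [← qA, ← p0]
      exact comp'' 1 0 (-1) 5 0 1 G
    have a3 : (edge7 0 1 0 0 5 G : Fn7 (7 ^ r) (7 ^ s)) = pf7 G 0 := by
      have h := scaleV (r := r) (s := s) hH 5 1 0 0 1 (by norm_num) (Or.inr one_ne_zero)
      norm_num at h
      rw [h, p0]
    have a4 : (edge7 0 1 0 1 5 G : Fn7 (7 ^ r) (7 ^ s)) =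
        pf7 G 0 - -tr7 1 (-1) 1 (-6) (pf7 G 0 - tr7 1 1 0 1 (pf7 G 0) - pf7 G 1) := by
      rw [← qB, ← p0]
      exact comp'' 1 0 1 5 0 1 G
    have a5 : (edge7 0 1 0 2 5 G : Fn7 (7 ^ r) (7 ^ s)) =
        (pf7 G 0 - pf7 G 1) + -tr7 3 (-1) 1 (-2) (pf7 G 0 - tr7 1 1 0 1 (pf7 G 0)) := by
      rw [← qC, ← qh]
      exact comp 1 0 1 2 2 5 G
    have a6 : (edge7 0 1 0 3 5 G : Fn7 (7 ^ r) (7 ^ s)) =
        (pf7 G 0 - pf7 G 1) + tr7 4 (-3) 1 (-5) (pf7 G 0 - tr7 1 1 0 1 (pf7 G 0)) := by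
      rw [← qD, ← qh]
      exact comp 1 0 1 2 3 5 G
    norm_num
    rw [a1, a2, a3, a4, a5, a6]
    simp only [tadd, tsub, tneg, cA, cB, cB', cC, cC', cD, cD']
    simp only [T5L, opL_cons, opL_nil, Int.cast_one, Int.cast_neg, one_smul, neg_smul]
    abel
  · -- row 1
    have z : e7 (⟨1, by norm_num⟩ : Fin 2) = 2 := rfl
    rw [z]
    have a1 : (edge7 0 5 2 0 1 G : Fn7 (7 ^ r) (7 ^ s)) =
        tr7 1 2 0 1 (pf7 G 1) + (pf7 G 0 - tr7 1 2 0 1 (pf7 G 0)) := by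
      have h := hE 1 2 0 1 1 2 0 1 (by norm_num) (Or.inl one_ne_zero) (Or.inr one_ne_zero)
      norm_num at h
      rw [← q2, ← p0, ← p1, ← h, ← comp' 1 0 2 1 0 1 G]
      exact comp 5 2 2 1 0 1 G
    have b2 : (edge7 0 (-1) 10 0 1 G : Fn7 (7 ^ r) (7 ^ s)) =
        tr7 2 (-1) (-3) 11 (pf7 G 0 - tr7 1 1 0 1 (pf7 G 0) - pf7 G 1) := by
      have h := hE 2 (-1) (-3) 11 1 1 1 2 (by norm_num) (Or.inl one_ne_zero) (Or.inl one_ne_zero)
      norm_num at h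
      rw [← qk, ← h]
      have h' := scaleU (r := r) (s := s) hH (-1) 1 (-10) 0 1 (by norm_num) (Or.inl one_ne_zero)
      norm_num at h'
      exact h'
    have a2 : (edge7 0 (-1) 10 (-1) 5 G : Fn7 (7 ^ r) (7 ^ s)) =
        tr7 2 (-1) (-3) 11 (pf7 G 0 - tr7 1 1 0 1 (pf7 G 0) - pf7 G 1) -
          tr7 1 0 (-1) 1 (pf7 G 1) := by
      rw [← b2, ← qA]
      exact comp'' (-1) 10 (-1) 5 0 1 G
    have a3 : (edge7 0 1 10 0 5 G : Fn7 (7 ^ r) (7 ^ s)) = -tr7 2 (-1) 3 (-10) (pf7 G 1) := by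
      have h := scaleV (r := r) (s := s) hH 5 1 10 0 1 (by norm_num) (Or.inr one_ne_zero)
      have h' := hE 2 (-1) 3 (-10) 1 2 0 1 (by norm_num) (Or.inl one_ne_zero) (Or.inr one_ne_zero)
      have h'' := scaleU (r := r) (s := s) hH (-1) 1 10 0 1 (by norm_num) (Or.inl one_ne_zero)
      norm_num at h h' h''
      rw [h, ← p1, ← h', ← h'']
      exact rev (-1) (-10) 0 1 G
    have b4 : (edge7 0 (-1) 1 1 2 G : Fn7 (7 ^ r) (7 ^ s)) =
        (pf7 G 0 - pf7 G 1) - tr7 1 (-1) 0 1 (pf7 G 0) := by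
      rw [← qh, ← qm]
      exact comp' 1 0 (-1) 1 1 2 G
    have b4' : (edge7 0 3 10 0 1 G : Fn7 (7 ^ r) (7 ^ s)) =
        tr7 2 (-1) 1 (-3) ((pf7 G 0 - pf7 G 1) - tr7 1 (-1) 0 1 (pf7 G 0)) := by
      have h := hE 2 (-1) 1 (-3) (-1) 1 1 2 (by norm_num) (Or.inr one_ne_zero) (Or.inl one_ne_zero)
      norm_num at h
      rw [← b4, ← h]
      have h' := scaleU (r := r) (s := s) hH (-1) 3 10 0 1 (by norm_num) (Or.inl three_ne_zero)
      norm_num at h'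
      exact h'.symm
    have a4 : (edge7 0 3 10 1 5 G : Fn7 (7 ^ r) (7 ^ s)) =
        tr7 2 (-1) 1 (-3) ((pf7 G 0 - pf7 G 1) - tr7 1 (-1) 0 1 (pf7 G 0)) -
          -tr7 1 (-1) 1 (-6) (pf7 G 0 - tr7 1 1 0 1 (pf7 G 0) - pf7 G 1) := by
      rw [← qB, ← b4']
      exact comp'' 3 10 1 5 0 1 G
    have a5 : (edge7 0 5 10 2 5 G : Fn7 (7 ^ r) (7 ^ s)) =
        -tr7 3 (-1) 1 (-2) (pf7 G 0 - tr7 1 1 0 1 (pf7 G 0)) := by
      have h := scaleU (r := r) (s := s) hH 5 1 2 2 5 (by norm_num) (Or.inl one_ne_zero)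
      norm_num at h
      rw [h, qC]
    have b6 : (edge7 0 2 1 1 2 G : Fn7 (7 ^ r) (7 ^ s)) =
        (pf7 G 0 - pf7 G 1) - tr7 1 2 0 1 (pf7 G 0) := by
      rw [← qh, ← q2]
      exact comp' 1 0 2 1 1 2 G
    have b6' : (edge7 0 7 10 1 1 G : Fn7 (7 ^ r) (7 ^ s)) =
        tr7 5 (-3) 1 (-4) ((pf7 G 0 - pf7 G 1) - tr7 1 2 0 1 (pf7 G 0)) := by
      have h := hE 5 (-3) 1 (-4) 2 1 1 2 (by norm_num) (Or.inr one_ne_zero) (Or.inl one_ne_zero)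
      norm_num at h
      rw [← b6, ← h]
      have h' := scaleV (r := r) (s := s) hH (-1) 7 10 1 1 (by norm_num) (Or.inl one_ne_zero)
      norm_num at h'
      exact h'.symm
    have a6 : (edge7 0 7 10 3 5 G : Fn7 (7 ^ r) (7 ^ s)) =
        tr7 5 (-3) 1 (-4) ((pf7 G 0 - pf7 G 1) - tr7 1 2 0 1 (pf7 G 0)) +
          ((pf7 G 0 - tr7 1 1 0 1 (pf7 G 0) - pf7 G 1) +
            tr7 4 (-3) 1 (-5) (pf7 G 0 - tr7 1 1 0 1 (pf7 G 0))) := by
      rw [← qD, ← b6', ← qk, ← comp 1 1 1 2 3 5 G]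
      exact comp 7 10 1 1 3 5 G
    have d1 : ∀ F : Fn7 (7 ^ r) (7 ^ s), tr7 1 0 0 5 (tr7 1 2 0 1 F) = tr7 1 2 0 5 F := by
      intro F
      rw [hM _ _ _ _ _ _ _ _ _ (by norm_num) (by norm_num) (by norm_num) (by norm_num)]
      norm_num
    have d2 : ∀ F : Fn7 (7 ^ r) (7 ^ s), tr7 5 1 0 1 (tr7 2 (-1) (-3) 11 F) =
        tr7 11 (-6) 3 (-11) F := by
      intro F
      rw [hM _ _ _ _ _ _ _ _ _ (by norm_num) (by norm_num) (by norm_num) (by norm_num),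
        ← hN F 11 (-6) 3 (-11) (by norm_num) (by norm_num)]
      norm_num
    have d2' : ∀ F : Fn7 (7 ^ r) (7 ^ s), tr7 11 (-6) 3 (-11) (tr7 1 1 0 1 F) =
        tr7 11 5 3 10 F := by
      intro F
      rw [hM _ _ _ _ _ _ _ _ _ (by norm_num) (by norm_num) (by norm_num) (by norm_num)]
      norm_num
    have d3 : ∀ F : Fn7 (7 ^ r) (7 ^ s), tr7 5 0 0 1 (tr7 2 (-1) 3 (-10) F) =
        tr7 10 (-5) 3 (-10) F := by
      intro F
      rw [hM _ _ _ _ _ _ _ _ _ (by norm_num) (by norm_num) (by norm_num) (by norm_num)]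
      norm_num
    have d4 : ∀ F : Fn7 (7 ^ r) (7 ^ s), tr7 5 (-1) 0 1 (tr7 2 (-1) 1 (-3) F) =
        tr7 3 (-2) 1 (-3) F := by
      intro F
      rw [hM _ _ _ _ _ _ _ _ _ (by norm_num) (by norm_num) (by norm_num) (by norm_num)]
      norm_num
    have d4' : ∀ F : Fn7 (7 ^ r) (7 ^ s), tr7 3 (-2) 1 (-3) (tr7 1 (-1) 0 1 F) =
        tr7 3 (-5) 1 (-10) F := by
      intro F
      rw [hM _ _ _ _ _ _ _ _ _ (by norm_num) (by norm_num) (by norm_num) (by norm_num)]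
      norm_num
    have d6 : ∀ F : Fn7 (7 ^ r) (7 ^ s), tr7 5 (-3) 0 1 (tr7 5 (-3) 1 (-4) F) =
        tr7 4 (-3) 1 (-4) F := by
      intro F
      rw [hM _ _ _ _ _ _ _ _ _ (by norm_num) (by norm_num) (by norm_num) (by norm_num)]
      norm_num
    have d6' : ∀ F : Fn7 (7 ^ r) (7 ^ s), tr7 4 (-3) 1 (-4) (tr7 1 2 0 1 F) =
        tr7 4 5 1 10 F := by
      intro F
      rw [hM _ _ _ _ _ _ _ _ _ (by norm_num) (by norm_num) (by norm_num) (by norm_num)]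
      norm_num
    have d7 : ∀ F : Fn7 (7 ^ r) (7 ^ s), tr7 5 (-3) 0 1 (tr7 1 1 0 1 F) = tr7 5 2 0 1 F := by
      intro F
      rw [hM _ _ _ _ _ _ _ _ _ (by norm_num) (by norm_num) (by norm_num) (by norm_num)]
      norm_num
    norm_num
    rw [a1, a2, a3, a4, a5, a6]
    simp only [tadd, tsub, tneg, cA, cB, cB', cC, cC', cD, cD', d1, d2, d2', d3, d4, d4', d6, d6',
      d7]
    simp only [T5L, opL_cons, opL_nil, Int.cast_one, Int.cast_neg, one_smul, neg_smul]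
    abel

end Pool.Agent.Helper27.S7
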